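import Pool.Agent.Work.MP_6241b7_co.FewRes
import Pool.Agent.Work.MP_6241b7_co.DiamRes

/-!
# Burr's conjecture for oriented trees with few non-leaf vertices

Let `T` be an oriented tree with `k` edges and at most `m` non-leaf vertices. Every oriented graph
with chromatic number at least `2 k + 2 m (m - 1)` contains `T`; if `m ≤ 2` (oriented stars and
double stars, that is, trees of diameter at most three) the exact bound `2 k` suffices.

The proofs are in `Work/MP_6241b7_co/FewRes.lean` and `Work/MP_6241b7_co/DiamRes.lean`.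
-/

set_option autoImplicit false

namespace Pool.Agent.Results.MP_6241b7_co.FewNonLeaves

theorem result :
    ∀ (k m n : ℕ) (D : Fin n → Fin n → Prop),
      1 ≤ k →
      (∀ x y, D x y → ¬ D y x) →
      ((2 * k + (if m ≤ 2 then 0 else 2 * (m * (m - 1))) : ℕ) : ℕ∞) ≤
        (SimpleGraph.fromRel D).chromaticNumber →
      ∀ T : Fin (k + 1) → Fin (k + 1) → Prop,
        (∀ a b, T a b → ¬ T b a) →
        (SimpleGraph.fromRel T).IsTree →
        {v | 1 < ((SimpleGraph.fromRel T).neighborSet v).ncard}.ncard ≤ m →
        ∃ f : Fin (k + 1) → Fin n, Function.Injective f ∧ ∀ a b, T a b → D (f a) (f b) := by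
  intro k m n D hk hD hχ T hTas hT hm
  by_cases h : m ≤ 2
  · rw [if_pos h, Nat.add_zero] at hχ
    exact Work.MP_6241b7_co.DiameterThree.result k n D hk hD hχ T hTas hT (hm.trans h)
  · rw [if_neg h] at hχ
    exact Work.MP_6241b7_co.FewNonLeaves.result k m n D hk hD hχ T hTas hT hm

end Pool.Agent.Results.MP_6241b7_co.FewNonLeaves
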