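import Pool.Agent.Work.MP_6241b7_rad.Final

/-!
# Burr's conjecture up to a logarithmic factor, for all oriented trees

Let `T` be an oriented tree with `k` edges, all of whose vertices are at distance at most `h` from a
directed path of `T` with `m` edges (`m = 0`: a single vertex, `h` = radius of `T`). Then every digraph
of chromatic number larger than `m + 24 k (⌊log_3 h⌋ + 2)` contains `T`.

Idea and proof: helper41, found independently by helper51 and helper68; Lean: helper51, based on
blocks of helper17, helper41, helper76 and helper79 (`Work/MP_6241b7_nash`).

Proof. Levels `0, ..., M`, a price `lam > 0` per level. Every vertex `v` plays two games: it chooses a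
probability distribution on the levels, its payoff at the level `i` being the number of out-neighbours
(resp. in-neighbours) which are seen below `i`, minus `lam i`. Every vertex is seen at the smaller one
of the means of its two distributions (a real number, interpolated between the two neighbouring
levels, so that the payoffs are continuous). By Brouwer's theorem there is an equilibrium. If `a` is a
level which is chosen by `v` with positive probability for its out-neighbours, then every window of
levels ending just below `a` carries at least `lam` times its length of out-neighbours of `v`, and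
every window starting at `a` at most `lam` times its length.
If all vertices of a copy of the path are seen at levels `≥ z`, `lam (h - 1) + k < lam z`, then the
rest of `T` is embedded greedily: a new neighbour is chosen as high as possible, and with
`U y` = mass of the used vertices at levels `≥ y` the inequality `y + U y / lam ≥ z - height` holds for
all `y` above the level of every used vertex.
The vertices which are seen below the level `z` are coloured in classes: for a vertex seen near the
level `x` at the mean of its first distribution, whose support starts at `a ≤ x`, take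
`s = ⌊log_3 (x - a + 1)⌋` and `⌊(x + 1) / 3 ^ s⌋`; in every class all vertices have at most
`lam (4 3 ^ s - 1)` out-neighbours (resp. in-neighbours).
-/

set_option autoImplicit false

namespace Pool.Agent.Results.MP_6241b7_co.NearLinear

theorem result :
    (∀ (k n m h : ℕ) (D : Fin n → Fin n → Prop), (∀ x, ¬ D x x) →
      ∀ (T : Fin (k + 1) → Fin (k + 1) → Prop), (∀ a b, T a b → ¬ T b a) →
      (SimpleGraph.fromRel T).IsTree →
      ∀ (p : Fin (m + 1) → Fin (k + 1)), Function.Injective p →
      (∀ i : Fin m, T (p i.castSucc) (p i.succ)) →
      1 ≤ h → (∀ x, ∃ i, (SimpleGraph.fromRel T).dist (p i) x ≤ h) →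
      ((m + 24 * k * (Nat.log 3 h + 2) : ℕ) : ℕ∞) < (SimpleGraph.fromRel D).chromaticNumber →
      ∃ f : Fin (k + 1) → Fin n, Function.Injective f ∧ ∀ x y, T x y → D (f x) (f y)) ∧
    (∀ (k n c h : ℕ) (D : Fin n → Fin n → Prop), (∀ x, ¬ D x x) →
      ∀ (T : Fin (k + 1) → Fin (k + 1) → Prop), (∀ a b, T a b → ¬ T b a) →
      (SimpleGraph.fromRel T).IsTree →
      ∀ (S : Finset (Fin (k + 1))),
      ((SimpleGraph.fromRel T).induce (S : Set (Fin (k + 1)))).Connected →
      1 ≤ h → (∀ x, ∃ s ∈ S, (SimpleGraph.fromRel T).dist s x ≤ h) →
      (∀ (n' : ℕ) (D' : Fin n' → Fin n' → Prop), (∀ x, ¬ D' x x) →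
        ((c : ℕ) : ℕ∞) < (SimpleGraph.fromRel D').chromaticNumber →
        ∃ g : Fin (k + 1) → Fin n', Set.InjOn g S ∧ ∀ x ∈ S, ∀ y ∈ S, T x y → D' (g x) (g y)) →
      ((c + 24 * k * (Nat.log 3 h + 2) : ℕ) : ℕ∞) < (SimpleGraph.fromRel D).chromaticNumber →
      ∃ f : Fin (k + 1) → Fin n, Function.Injective f ∧ ∀ x y, T x y → D (f x) (f y)) := by
  refine ⟨?_, ?_⟩
  · intro k n m h D hD T hTas hT p hp hpT h1 hh hχ
    exact Work.MP_6241b7_rad.near_path D hD hTas hT p hp hpT h1 hh hχ
  · intro k n c h D hD T hTas hT S hS h1 hh hc hχ
    exact Work.MP_6241b7_rad.near_subtree D hD hTas hT S hS h1 hh hc hχ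

end Pool.Agent.Results.MP_6241b7_co.NearLinear
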